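import Pool.Agent.N924.LP.Eq

/-!
# Sets of integral vectors whose closure in `ℤ_p ^ κ` has Haar measure zero (helper918)
-/

set_option autoImplicit false

namespace Pool.Agent.N918.PN

open Filter Topology

noncomputable section

variable {κ : Type} [Fintype κ]

/-- the residue classes modulo `q` of the vectors in `B` -/
def img (q : ℕ) (B : Set (κ → ℤ)) : Set (κ → ZMod q) :=
  (fun (v : κ → ℤ) (i : κ) => ((v i : ℤ) : ZMod q)) '' B

/-- For every `ε > 0` there is `k` such that at most the proportion `ε` of the residue classes modulo `p ^ k` meets `B`: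
the closure of `B` in `ℤ_p ^ κ` has Haar measure zero. -/
def PNull (p : ℕ) (B : Set (κ → ℤ)) : Prop :=
  ∀ ε : ℝ, 0 < ε → ∃ k : ℕ,
    ((((fun (v : κ → ℤ) (i : κ) => ((v i : ℤ) : ZMod (p ^ k))) '' B).ncard : ℕ) : ℝ) ≤
      ε * ((p ^ k : ℕ) : ℝ) ^ Fintype.card κ

variable {p : ℕ}

theorem level (hp : 0 < p) (B : Set (κ → ℤ)) {k k' : ℕ} (hk : k ≤ k') :
    (img (p ^ k') B).ncard ≤ (img (p ^ k) B).ncard * (p ^ (k' - k)) ^ Fintype.card κ := by
  classical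
  have h0 : NeZero (p ^ k) := ⟨(pow_pos hp _).ne'⟩
  have h0' : NeZero (p ^ k') := ⟨(pow_pos hp _).ne'⟩
  have hpp : p ^ k' = p ^ k * p ^ (k' - k) := by rw [← pow_add]; congr 1; omega
  have hdiv : ∀ c : ZMod (p ^ k'), c.val / p ^ k < p ^ (k' - k) := by
    intro c
    have h1 : c.val < p ^ k * p ^ (k' - k) := lt_of_lt_of_eq (ZMod.val_lt c) hpp
    exact Nat.div_lt_of_lt_mul h1
  let φ : (κ → ZMod (p ^ k')) → (κ → ZMod (p ^ k)) × (κ → Fin (p ^ (k' - k))) := fun c =>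
    (fun i => (((c i).val : ℕ) : ZMod (p ^ k)), fun i => ⟨(c i).val / p ^ k, hdiv (c i)⟩)
  have hinj : Function.Injective φ := by
    intro c c' h
    funext i
    have h1 : ((((c i).val : ℕ) : ZMod (p ^ k))) = (((c' i).val : ℕ) : ZMod (p ^ k)) :=
      congrFun (congrArg Prod.fst h) i
    have h2 : (c i).val / p ^ k = (c' i).val / p ^ k :=
      congrArg Fin.val (congrFun (congrArg Prod.snd h) i)
    rw [ZMod.natCast_eq_natCast_iff] at h1
    apply ZMod.val_injective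
    rw [← Nat.div_add_mod (c i).val (p ^ k), ← Nat.div_add_mod (c' i).val (p ^ k), h2, h1]
  have hmaps : Set.MapsTo φ (img (p ^ k') B) (img (p ^ k) B ×ˢ Set.univ) := by
    rintro _ ⟨v, hv, rfl⟩
    refine ⟨⟨v, hv, ?_⟩, Set.mem_univ _⟩
    funext i
    have h1 : ((((v i : ℤ) : ZMod (p ^ k')).val : ℕ) : ℤ) = v i % (p ^ k' : ℕ) := ZMod.val_intCast _
    change ((v i : ℤ) : ZMod (p ^ k)) = ((((v i : ℤ) : ZMod (p ^ k')).val : ℕ) : ZMod (p ^ k))
    rw [← Int.cast_natCast (R := ZMod (p ^ k)), h1, ZMod.intCast_eq_intCast_iff_dvd_sub]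
    have h2 : ((p ^ k : ℕ) : ℤ) ∣ ((p ^ k' : ℕ) : ℤ) := by
      exact_mod_cast pow_dvd_pow p hk
    refine dvd_trans h2 ⟨-(v i / (p ^ k' : ℕ)), ?_⟩
    have h3 := Int.emod_add_mul_ediv (v i) ((p ^ k' : ℕ) : ℤ)
    linarith
  have h1 := Set.ncard_le_ncard_of_injOn φ hmaps hinj.injOn (Set.toFinite _)
  rw [Set.ncard_prod, Set.ncard_univ, Nat.card_eq_fintype_card, Fintype.card_fun, Fintype.card_fin] at h1
  exact h1

theorem PNull.eventually (hp : 0 < p) {B : Set (κ → ℤ)} (hB : PNull p B) (ε : ℝ) (hε : 0 < ε) :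
    ∃ k₀ : ℕ, ∀ k : ℕ, k₀ ≤ k →
      (((img (p ^ k) B).ncard : ℕ) : ℝ) ≤ ε * ((p ^ k : ℕ) : ℝ) ^ Fintype.card κ := by
  obtain ⟨k₀, h0⟩ := hB ε hε
  refine ⟨k₀, fun k hk => ?_⟩
  have h1 := level hp B hk
  have h2 : (((img (p ^ k) B).ncard : ℕ) : ℝ) ≤
      (((img (p ^ k₀) B).ncard : ℕ) : ℝ) * ((p ^ (k - k₀) : ℕ) : ℝ) ^ Fintype.card κ := by
    exact_mod_cast h1
  refine h2.trans ?_
  have h3 : (((img (p ^ k₀) B).ncard : ℕ) : ℝ) ≤ ε * ((p ^ k₀ : ℕ) : ℝ) ^ Fintype.card κ := h0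
  have h4 : ((p ^ k : ℕ) : ℝ) = ((p ^ k₀ : ℕ) : ℝ) * ((p ^ (k - k₀) : ℕ) : ℝ) := by
    rw [← Nat.cast_mul, ← pow_add]
    congr 2
    omega
  rw [h4, mul_pow, ← mul_assoc]
  exact mul_le_mul_of_nonneg_right h3 (by positivity)

theorem PNull.mono {B B' : Set (κ → ℤ)} (hB : PNull p B') (h : B ⊆ B') (hp : 0 < p) : PNull p B := by
  intro ε hε
  obtain ⟨k, hk⟩ := hB ε hε
  have : NeZero (p ^ k) := ⟨(pow_pos hp _).ne'⟩
  refine ⟨k, le_trans ?_ hk⟩
  exact_mod_cast Set.ncard_le_ncard (Set.image_mono h) (Set.toFinite _)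

theorem pnull_empty : PNull p (∅ : Set (κ → ℤ)) := by
  intro ε hε
  refine ⟨0, ?_⟩
  rw [Set.image_empty, Set.ncard_empty]
  push_cast
  positivity

theorem PNull.union (hp : 0 < p) {A B : Set (κ → ℤ)} (hA : PNull p A) (hB : PNull p B) :
    PNull p (A ∪ B) := by
  intro ε hε
  obtain ⟨k₁, h1⟩ := hA.eventually hp (ε / 2) (by positivity)
  obtain ⟨k₂, h2⟩ := hB.eventually hp (ε / 2) (by positivity)
  obtain ⟨k, hk⟩ : ∃ k, k = max k₁ k₂ := ⟨_, rfl⟩
  have : NeZero (p ^ k) := ⟨(pow_pos hp _).ne'⟩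
  have a1 := h1 k (by rw [hk]; exact le_max_left _ _)
  have a2 := h2 k (by rw [hk]; exact le_max_right _ _)
  refine ⟨k, ?_⟩
  have h3 : ((fun (v : κ → ℤ) (i : κ) => ((v i : ℤ) : ZMod (p ^ k))) '' (A ∪ B)).ncard ≤
      (img (p ^ k) A).ncard + (img (p ^ k) B).ncard := by
    rw [Set.image_union]
    exact Set.ncard_union_le _ _
  have h4 : ((((fun (v : κ → ℤ) (i : κ) => ((v i : ℤ) : ZMod (p ^ k))) '' (A ∪ B)).ncard : ℕ) : ℝ) ≤
      (((img (p ^ k) A).ncard : ℕ) : ℝ) + (((img (p ^ k) B).ncard : ℕ) : ℝ) := by exact_mod_cast h3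
  linarith

theorem PNull.biUnion (hp : 0 < p) {α : Type} (u : Finset α) (A : α → Set (κ → ℤ))
    (h : ∀ i ∈ u, PNull p (A i)) : PNull p {v | ∃ i ∈ u, v ∈ A i} := by
  classical
  induction u using Finset.induction_on with
  | empty =>
    have e1 : {v : κ → ℤ | ∃ i ∈ (∅ : Finset α), v ∈ A i} = ∅ := by
      ext v
      simp
    rw [e1]
    exact pnull_empty
  | insert a u ha ih =>
    have e1 : {v : κ → ℤ | ∃ i ∈ insert a u, v ∈ A i} = A a ∪ {v | ∃ i ∈ u, v ∈ A i} := by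
      ext v
      simp [Finset.mem_insert]
    rw [e1]
    exact (h a (Finset.mem_insert_self _ _)).union hp (ih fun i hi => h i (Finset.mem_insert_of_mem hi))

/-- sets contained in few classes -/
theorem pnull_of (_hp : 0 < p) {B : Set (κ → ℤ)}
    (hB : ∀ ε : ℝ, 0 < ε → ∃ (k : ℕ) (T : Finset (κ → ZMod (p ^ k))),
      (T.card : ℝ) ≤ ε * ((p ^ k : ℕ) : ℝ) ^ Fintype.card κ ∧
      ∀ v ∈ B, (fun i => ((v i : ℤ) : ZMod (p ^ k))) ∈ T) : PNull p B := by
  intro ε hε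
  obtain ⟨k, T, h1, h2⟩ := hB ε hε
  refine ⟨k, le_trans ?_ h1⟩
  have h3 : (fun (v : κ → ℤ) (i : κ) => ((v i : ℤ) : ZMod (p ^ k))) '' B ⊆ (T : Set (κ → ZMod (p ^ k))) := by
    rintro _ ⟨v, hv, rfl⟩
    exact h2 v hv
  have h4 := Set.ncard_le_ncard h3 T.finite_toSet
  rw [Set.ncard_coe_finset] at h4
  exact_mod_cast h4

/-- a large power of `p` -/
lemma exists_pow (hp : 1 < p) (x : ℝ) : ∃ k : ℕ, x < ((p ^ k : ℕ) : ℝ) := by
  obtain ⟨k, hk⟩ := pow_unbounded_of_one_lt x (by exact_mod_cast hp : (1 : ℝ) < p)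
  exact ⟨k, by push_cast; exact hk⟩

/-- a coordinate minus a function of the others in a finite set -/
theorem pnull_graph (hp : 1 < p) (i : κ) (g : ∀ q : ℕ, (κ → ZMod q) → ZMod q) (G : (κ → ℤ) → ℤ)
    (hg : ∀ (q : ℕ) (c c' : κ → ZMod q), (∀ j, j ≠ i → c j = c' j) → g q c = g q c')
    (hG : ∀ (q : ℕ) (v : κ → ℤ), ((G v : ℤ) : ZMod q) = g q fun j => ((v j : ℤ) : ZMod q))
    (D : Finset ℤ) : PNull p {v : κ → ℤ | v i - G v ∈ D} := by
  classical
  refine pnull_of (by omega) fun ε hε => ?_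
  obtain ⟨k, hk⟩ := exists_pow hp ((D.card : ℝ) / ε)
  have hne : NeZero (p ^ k) := ⟨(pow_pos (by omega) _).ne'⟩
  let H : ℤ → Finset (κ → ZMod (p ^ k)) := fun d =>
    Finset.univ.filter fun c => c i = g (p ^ k) c + (d : ZMod (p ^ k))
  refine ⟨k, D.biUnion H, ?_, ?_⟩
  · have h1 : ∀ d ∈ D, (H d).card * p ^ k ≤ (p ^ k) ^ Fintype.card κ := by
      intro d _
      refine Pool.Agent.N924.LP.card_graph i (fun c => g (p ^ k) c + (d : ZMod (p ^ k))) ?_ _ ?_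
      · intro c c' h
        exact congrArg (fun x => x + (d : ZMod (p ^ k))) (hg (p ^ k) c c' h)
      · intro c hc
        exact (Finset.mem_filter.1 hc).2
    have h2 : (D.biUnion H).card * p ^ k ≤ D.card * (p ^ k) ^ Fintype.card κ := by
      calc (D.biUnion H).card * p ^ k ≤ (∑ d ∈ D, (H d).card) * p ^ k :=
            Nat.mul_le_mul_right _ Finset.card_biUnion_le
        _ = ∑ d ∈ D, (H d).card * p ^ k := by rw [Finset.sum_mul]
        _ ≤ ∑ d ∈ D, (p ^ k) ^ Fintype.card κ := Finset.sum_le_sum h1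
        _ = D.card * (p ^ k) ^ Fintype.card κ := by rw [Finset.sum_const, smul_eq_mul]
    have h3 : ((D.biUnion H).card : ℝ) * ((p ^ k : ℕ) : ℝ) ≤ D.card * ((p ^ k : ℕ) : ℝ) ^ Fintype.card κ := by
      exact_mod_cast h2
    have hq0 : (0 : ℝ) < ((p ^ k : ℕ) : ℝ) := by exact_mod_cast pow_pos (by omega) _
    rw [div_lt_iff₀ hε] at hk
    have h4 : (0 : ℝ) ≤ ((p ^ k : ℕ) : ℝ) ^ Fintype.card κ := by positivity
    have h5 : ((D.biUnion H).card : ℝ) * ((p ^ k : ℕ) : ℝ) ≤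
        (ε * ((p ^ k : ℕ) : ℝ) ^ Fintype.card κ) * ((p ^ k : ℕ) : ℝ) := by nlinarith
    exact le_of_mul_le_mul_right h5 hq0
  · intro v hv
    rw [Finset.mem_biUnion]
    refine ⟨_, hv, Finset.mem_filter.2 ⟨Finset.mem_univ _, ?_⟩⟩
    push_cast
    rw [hG]
    ring

/-- a coordinate, or the difference of two coordinates, in a finite set -/
theorem pnull_diff (hp : 1 < p) (i : κ) (j : Option κ) (hij : j ≠ some i) (D : Finset ℤ) :
    PNull p {v : κ → ℤ | v i - j.elim 0 v ∈ D} := by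
  refine pnull_graph hp i (fun q c => j.elim 0 c) (fun v => j.elim 0 v) ?_ ?_ D
  · intro q c c' h
    rcases j with _ | j
    · rfl
    · have : j ≠ i := fun h => hij (by rw [h])
      simp only [Option.elim_some]
      rw [h j this]
  · intro q v
    rcases j with _ | j
    · simp
    · simp

/-- the sum of two coordinates in a finite set -/
theorem pnull_sum (hp : 1 < p) (i j : κ) (hij : j ≠ i) (D : Finset ℤ) :
    PNull p {v : κ → ℤ | v i + v j ∈ D} := by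
  have h := pnull_graph hp i (fun q c => -c j) (fun v => -v j) (fun q c c' h => by
    rw [h j hij]) (fun q v => by push_cast; rfl) D
  refine h.mono ?_ (by omega)
  intro v hv
  simp only [Set.mem_ofPred_eq, sub_neg_eq_add] at hv ⊢
  exact hv

/-- the zero set of a power series on a class modulo `p ^ 2` -/
theorem pnull_class [hp : Fact p.Prime] {s : ℕ} (e : κ ≃ Fin s) (Y : Pool.Agent.N924.LP.Sys p s)
    (h : Y.R) (hh : h ≠ 0) (ρ : κ → ℤ) :
    PNull p {v : κ → ℤ | ∃ y : Fin s → ℤ, (∀ i, v i = ρ i + (p : ℤ) ^ 2 * y (e i)) ∧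
      Y.ev (fun i => ((y i : ℤ) : ℤ_[p])) h = 0} := by
  classical
  refine pnull_of hp.out.pos fun ε hε => ?_
  obtain ⟨k, T, hT, hmem⟩ := Pool.Agent.N924.LP.content Y h hh ε hε
  have hk : NeZero (p ^ k) := ⟨pow_ne_zero _ hp.out.ne_zero⟩
  have hs : Fintype.card κ = s := by rw [Fintype.card_congr e, Fintype.card_fin]
  refine ⟨k + 2, T.image fun c i => ((ρ i + (p : ℤ) ^ 2 * ((c (e i)).val : ℤ) : ℤ) : ZMod (p ^ (k + 2))),
    ?_, ?_⟩
  · have h1 : ((T.image fun c i => ((ρ i + (p : ℤ) ^ 2 * ((c (e i)).val : ℤ) : ℤ) :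
        ZMod (p ^ (k + 2)))).card : ℝ) ≤ T.card := by exact_mod_cast Finset.card_image_le
    refine h1.trans (hT.trans ?_)
    rw [hs]
    have h2 : (((p ^ k : ℕ) : ℝ)) ≤ ((p ^ (k + 2) : ℕ) : ℝ) := by
      exact_mod_cast Nat.pow_le_pow_right hp.out.pos (by omega)
    gcongr
  · rintro v ⟨y, hy1, hy2⟩
    rw [Finset.mem_image]
    refine ⟨_, hmem _ hy2, ?_⟩
    funext i
    rw [hy1 i, eq_comm, ZMod.intCast_eq_intCast_iff_dvd_sub]
    have h1 : Pool.Agent.N924.LP.rd (p := p) k (fun i => ((y i : ℤ) : ℤ_[p])) (e i) =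
        ((y (e i) : ℤ) : ZMod (p ^ k)) := by
      unfold Pool.Agent.N924.LP.rd
      rw [map_intCast]
    rw [h1]
    have h2 : ((p ^ k : ℕ) : ℤ) ∣ (((y (e i) : ℤ) : ZMod (p ^ k)).val : ℤ) - y (e i) := by
      rw [← ZMod.intCast_zmod_eq_zero_iff_dvd]
      push_cast
      rw [ZMod.natCast_zmod_val, sub_self]
    obtain ⟨w, hw⟩ := h2
    refine ⟨w, ?_⟩
    have h3 : ρ i + (p : ℤ) ^ 2 * ((((y (e i) : ℤ) : ZMod (p ^ k)).val : ℤ)) -
        (ρ i + (p : ℤ) ^ 2 * y (e i)) =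
        (p : ℤ) ^ 2 * ((((y (e i) : ℤ) : ZMod (p ^ k)).val : ℤ) - y (e i)) := by ring
    rw [h3, hw]
    push_cast
    ring

/-- vectors some coordinates of which form a vector in `B` -/
theorem PNull.pull {κ' : Type} [Fintype κ'] (hp : 0 < p) {B : Set (κ → ℤ)} (hB : PNull p B)
    (σ : κ → κ') (hσ : Function.Injective σ) : PNull p {v : κ' → ℤ | (fun i => v (σ i)) ∈ B} := by
  classical
  intro ε hε
  obtain ⟨k, hk⟩ := hB ε hε
  refine ⟨k, ?_⟩
  have hne : NeZero (p ^ k) := ⟨(pow_pos hp _).ne'⟩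
  let φ : (κ' → ZMod (p ^ k)) → (κ → ZMod (p ^ k)) × ({j : κ' // j ∉ Set.range σ} → ZMod (p ^ k)) :=
    fun c => (fun i => c (σ i), fun j => c j.1)
  have hinj : Function.Injective φ := by
    intro c c' h
    funext j
    by_cases hj : j ∈ Set.range σ
    · obtain ⟨i, rfl⟩ := hj
      exact congrFun (congrArg Prod.fst h) i
    · exact congrFun (congrArg Prod.snd h) ⟨j, hj⟩
  have hmaps : Set.MapsTo φ ((fun (v : κ' → ℤ) (i : κ') => ((v i : ℤ) : ZMod (p ^ k))) ''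
      {v : κ' → ℤ | (fun i => v (σ i)) ∈ B}) (img (p ^ k) B ×ˢ Set.univ) := by
    rintro _ ⟨v, hv, rfl⟩
    exact ⟨⟨_, hv, rfl⟩, Set.mem_univ _⟩
  have h1 := Set.ncard_le_ncard_of_injOn φ hmaps hinj.injOn (Set.toFinite _)
  have hc : Fintype.card {j : κ' // j ∉ Set.range σ} = Fintype.card κ' - Fintype.card κ := by
    rw [Fintype.card_subtype_compl, Fintype.card_congr (Equiv.ofInjective σ hσ).symm]
  rw [Set.ncard_prod, Set.ncard_univ, Nat.card_eq_fintype_card, Fintype.card_fun, ZMod.card, hc] at h1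
  have hle : Fintype.card κ ≤ Fintype.card κ' := Fintype.card_le_of_injective σ hσ
  have h2 : ((((fun (v : κ' → ℤ) (i : κ') => ((v i : ℤ) : ZMod (p ^ k))) ''
      {v : κ' → ℤ | (fun i => v (σ i)) ∈ B}).ncard : ℕ) : ℝ) ≤
      (((img (p ^ k) B).ncard : ℕ) : ℝ) * ((p ^ k : ℕ) : ℝ) ^ (Fintype.card κ' - Fintype.card κ) := by
    exact_mod_cast h1
  have h3 : (((img (p ^ k) B).ncard : ℕ) : ℝ) ≤ ε * ((p ^ k : ℕ) : ℝ) ^ Fintype.card κ := hk
  refine h2.trans ((mul_le_mul_of_nonneg_right h3 (by positivity)).trans (le_of_eq ?_))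
  rw [mul_assoc, ← pow_add]
  congr 2
  omega

end

end Pool.Agent.N918.PN
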