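import Pool.Agent.N918.PN.Base
import Pool.Agent.N924.LP.Main
import Pool.Agent.N924.LP.SymMain

/-!
# The exceptional parameters for Leopoldt's conjecture have a closure of measure zero (helper918)

The proofs are those of `Pool.Agent.N924.LP.Main` and `Pool.Agent.N924.LP.SymMain` (helper924), for sets of residue
classes modulo the powers of `p`.
-/

set_option autoImplicit false

namespace Pool.Agent.N918.PN

open Polynomial NumberField Pool.Agent.N924.LP

noncomputable section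

variable {r₁ r₂ : ℕ}

/-- **Leopoldt's conjecture.** -/
theorem pnull_leo (p : ℕ) [hp : Fact p.Prime] (hr : 1 ≤ r₁ + r₂) :
    PNull p {v : Idx r₁ r₂ → ℤ | (∀ k, 0 < v (Sum.inr (Sum.inr k))) ∧ ¬ Holds p v} := by
  classical
  have hne2 : NeZero (p ^ 2) := ⟨pow_ne_zero _ hp.out.ne_zero⟩
  let s := Fintype.card (Idx r₁ r₂)
  let e : Idx r₁ r₂ ≃ Fin s := Fintype.equivFin _
  obtain ⟨Y⟩ := exists_sys p s
  choose h hh0 hh using fun R : Idx r₁ r₂ → ZMod (p ^ 2) =>
    cls_abc p hr e Y (rep p e R) (rep_far p e R)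
  let D : Finset ℤ := Finset.Ioo (-(bd r₁ r₂ : ℤ) ^ 2) ((bd r₁ r₂ : ℤ) ^ 2)
  let B₁ : Idx r₁ r₂ × Option (Idx r₁ r₂) → Set (Idx r₁ r₂ → ℤ) := fun x =>
    if x.2 = some x.1 then ∅ else {v | v x.1 - x.2.elim 0 v ∈ D}
  let B₂ : (Idx r₁ r₂ → ZMod (p ^ 2)) → Set (Idx r₁ r₂ → ℤ) := fun R =>
    {v | ∃ y : Fin s → ℤ, (∀ i, v i = rep p e R i + (p : ℤ) ^ 2 * y (e i)) ∧
      Y.ev (fun i => ((y i : ℤ) : ℤ_[p])) (h R) = 0}
  have hB₁ : PNull p {v | ∃ x ∈ (Finset.univ : Finset (Idx r₁ r₂ × Option (Idx r₁ r₂))),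
      v ∈ B₁ x} := by
    refine PNull.biUnion hp.out.pos _ _ ?_
    rintro ⟨i, j⟩ _
    by_cases hij : j = some i
    · simp only [B₁, if_pos hij]
      exact pnull_empty
    · simp only [B₁, if_neg hij]
      exact pnull_diff hp.out.one_lt i j hij D
  have hB₂ : PNull p {v | ∃ R ∈ (Finset.univ : Finset (Idx r₁ r₂ → ZMod (p ^ 2))), v ∈ B₂ R} :=
    PNull.biUnion hp.out.pos _ _ fun R _ => pnull_class e Y (h R) (hh0 R) _
  refine (hB₁.union hp.out.pos hB₂).mono ?_ hp.out.pos
  rintro v ⟨hpos, hnot⟩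
  by_cases hx : ∃ x ∈ (Finset.univ : Finset (Idx r₁ r₂ × Option (Idx r₁ r₂))), v ∈ B₁ x
  · exact Or.inl hx
  · right
    have hno : ∀ i j, j ≠ some i → v i - j.elim 0 v ∉ D := by
      intro i j hij hmem
      refine hx ⟨(i, j), Finset.mem_univ _, ?_⟩
      simp only [B₁, if_neg hij]
      exact hmem
    have hb1 : (bd r₁ r₂ : ℤ) ≤ (bd r₁ r₂ : ℤ) ^ 2 := by
      have : (3 : ℤ) ≤ bd r₁ r₂ := by
        have : 3 ≤ bd r₁ r₂ := by unfold bd; omega
        exact_mod_cast this
      nlinarith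
    have habs : ∀ i j : Idx r₁ r₂, i ≠ j → (bd r₁ r₂ : ℤ) ≤ |v i - v j| := by
      intro i j hij
      have h1 := hno i (some j) (by simpa using hij.symm)
      simp only [D, Option.elim_some, Finset.mem_Ioo, not_and_or, not_lt] at h1
      rcases h1 with h1 | h1
      · have := neg_le_abs (v i - v j)
        linarith
      · have := le_abs_self (v i - v j)
        linarith
    have hfar : FarV v := by
      refine ⟨fun i j hij => habs _ _ (by simpa using hij), fun k l hkl => habs _ _ (by simpa using hkl),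
        fun k => ?_⟩
      have h1 := hno (Sum.inr (Sum.inr k)) none (by simp)
      simp only [D, Option.elim_none, sub_zero, Finset.mem_Ioo, not_and_or, not_lt] at h1
      have h2 := hpos k
      have h3 : (0 : ℤ) ≤ (bd r₁ r₂ : ℤ) ^ 2 := by positivity
      rcases h1 with h1 | h1
      · linarith
      · exact_mod_cast h1
    have hbad : Bd p (r₁ + r₂ - 1) (pol v) := by
      by_contra hb
      exact hnot (holds_of p hr _ hfar hb)
    refine ⟨fun i => ((v i : ℤ) : ZMod (p ^ 2)), Finset.mem_univ _, ?_⟩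
    set R : Idx r₁ r₂ → ZMod (p ^ 2) := fun i => ((v i : ℤ) : ZMod (p ^ 2)) with hR
    have hdvd : ∀ i, (p : ℤ) ^ 2 ∣ v i - rep p e R i := by
      intro i
      have h1 : ((p ^ 2 : ℕ) : ℤ) ∣ v i - ((R i).val : ℤ) := by
        rw [← ZMod.intCast_zmod_eq_zero_iff_dvd]
        push_cast
        rw [ZMod.natCast_zmod_val]
        change ((v i : ℤ) : ZMod (p ^ 2)) - ((v i : ℤ) : ZMod (p ^ 2)) = 0
        exact sub_self _
      push_cast at h1
      unfold rep
      obtain ⟨w, hw⟩ := h1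
      refine ⟨w - (bd r₁ r₂ : ℤ) ^ 2 * ((e i : ℕ) + 1), ?_⟩
      rw [mul_sub, ← hw]
      push_cast
      ring
    choose y hy using hdvd
    have hy' : ∀ i, v i = rep p e R i + (p : ℤ) ^ 2 * (fun j => y (e.symm j)) (e i) := by
      intro i
      simp only [Equiv.symm_apply_apply]
      rw [← hy i]
      ring
    exact ⟨fun j => y (e.symm j), hy', hh R v _ hy' hbad⟩

variable {d : ℕ}

/-- **The symmetric families.** -/
theorem pnull_sym (p : ℕ) [hp : Fact p.Prime] (hd : 1 ≤ d) :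
    PNull p {v : Fin d → ℤ | ¬ HoldsS p v} := by
  classical
  have hne2 : NeZero (p ^ 2) := ⟨pow_ne_zero _ hp.out.ne_zero⟩
  obtain ⟨Y⟩ := exists_sys p d
  choose h hh0 hh using fun R : Fin d → ZMod (p ^ 2) =>
    cls_sym p hd Y (repS p R) (repS_far p R)
  let D : Finset ℤ := Finset.Ioo (-(bd (d + d) 0 : ℤ)) (bd (d + d) 0 : ℤ)
  have hDabs : ∀ x : ℤ, x ∉ D → (bd (d + d) 0 : ℤ) ≤ |x| := by
    intro x hx
    simp only [D, Finset.mem_Ioo, not_and_or, not_lt] at hx
    rcases hx with hx | hx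
    · have := neg_le_abs x
      linarith
    · exact hx.trans (le_abs_self _)
  let ι : Type := ((Fin d × Option (Fin d)) ⊕ (Fin d × Fin d)) ⊕ (Fin d → ZMod (p ^ 2))
  let B : ι → Set (Fin d → ℤ) := fun x => match x with
    | Sum.inl (Sum.inl x) => if x.2 = some x.1 then ∅ else {v | v x.1 - x.2.elim 0 v ∈ D}
    | Sum.inl (Sum.inr x) => if x.2 = x.1 then ∅ else {v | v x.1 + v x.2 ∈ D}
    | Sum.inr R => {v | ∃ y : Fin d → ℤ, (∀ i, v i = repS p R i + (p : ℤ) ^ 2 * y i) ∧
      Y.ev (fun i => ((y i : ℤ) : ℤ_[p])) (h R) = 0}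
  have hB : PNull p {v | ∃ x ∈ (Finset.univ : Finset ι), v ∈ B x} := by
    refine PNull.biUnion hp.out.pos _ _ ?_
    rintro ((⟨i, j⟩ | ⟨i, j⟩) | R) _
    · by_cases hij : j = some i
      · simp only [B, if_pos hij]
        exact pnull_empty
      · simp only [B, if_neg hij]
        exact pnull_diff hp.out.one_lt i j hij D
    · by_cases hij : j = i
      · simp only [B, if_pos hij]
        exact pnull_empty
      · simp only [B, if_neg hij]
        exact pnull_sum hp.out.one_lt i j hij D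
    · exact pnull_class (Equiv.refl (Fin d)) Y (h R) (hh0 R) _
  refine hB.mono ?_ hp.out.pos
  intro v hnot
  by_contra hno
  have hno' : ∀ x : ι, v ∉ B x := fun x hx => hno ⟨x, Finset.mem_univ _, hx⟩
  apply hnot
  have hfar : FarS v := by
    refine farS_of _ (fun i => ?_) (fun i j hij => ?_) (fun i j hij => ?_)
    · apply hDabs
      have h1 := hno' (Sum.inl (Sum.inl (i, none)))
      simpa [B] using h1
    · apply hDabs
      have h1 := hno' (Sum.inl (Sum.inl (i, some j)))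
      simp only [B] at h1
      rw [if_neg (by simpa using hij.symm)] at h1
      exact h1
    · apply hDabs
      have h1 := hno' (Sum.inl (Sum.inr (i, j)))
      simp only [B] at h1
      rw [if_neg (by simpa using hij.symm)] at h1
      exact h1
  refine ⟨hfar, fun E _ _ θ hθ hgen => leo_of p hd v hfar ?_ E θ hθ hgen⟩
  intro hbad
  set R : Fin d → ZMod (p ^ 2) := fun i => ((v i : ℤ) : ZMod (p ^ 2)) with hR
  have hdvd : ∀ i, (p : ℤ) ^ 2 ∣ v i - repS p R i := by
    intro i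
    have h1 : ((p ^ 2 : ℕ) : ℤ) ∣ v i - ((R i).val : ℤ) := by
      rw [← ZMod.intCast_zmod_eq_zero_iff_dvd]
      push_cast
      rw [ZMod.natCast_zmod_val]
      change ((v i : ℤ) : ZMod (p ^ 2)) - ((v i : ℤ) : ZMod (p ^ 2)) = 0
      exact sub_self _
    push_cast at h1
    unfold repS
    obtain ⟨w, hw⟩ := h1
    refine ⟨w - (bd (d + d) 0 : ℤ) ^ 2 * ((i : ℕ) + 1), ?_⟩
    rw [mul_sub, ← hw]
    push_cast
    ring
  choose y hy using hdvd
  have hy' : ∀ i, v i = repS p R i + (p : ℤ) ^ 2 * y i := by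
    intro i
    rw [← hy i]
    ring
  exact hno' (Sum.inr R) ⟨y, hy', hh R v _ hy' hbad⟩

end

end Pool.Agent.N918.PN
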