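import Pool.Agent.N918.PN.Base
import Pool.Agent.N763.SC.Seq

/-!
# Random orbits and metric sequences rarely visit sets whose closure in `ℤ_p ^ d` has measure zero (helper918)

The frequencies of the residue classes are those of `Pool.Agent.N763.SC.Seq` (helper763; engines of helper24).
-/

set_option autoImplicit false

namespace Pool.Agent.N918.PN

open Filter Topology MeasureTheory
open Pool.Agent.N24.RW (Walk orb words)
open Pool.Agent.N24.KM (Koksma Rarely)
open Pool.Agent.N763.SC (cnt Freq cnt_mono orbit_freq metric_freq linear_freq)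

variable {d : ℕ}

theorem rarely_of_freq {c : ℕ → Fin d → ℤ} {C : ℝ} (hC : 0 ≤ C) {p : ℕ} (hp : 0 < p)
    (hf : ∀ k, Freq c (p ^ k) C) {B : Set (Fin d → ℤ)} (hB : PNull p B) : Rarely c B := by
  change Tendsto (fun N : ℕ => cnt c B N / (N : ℝ)) atTop (𝓝 0)
  rw [tendsto_order]
  constructor
  · intro u hu
    refine Eventually.of_forall fun N => lt_of_lt_of_le hu ?_
    unfold cnt
    positivity
  · intro u hu
    obtain ⟨k, hk⟩ := hB (u / (2 * (C + 1))) (by positivity)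
    rw [Fintype.card_fin] at hk
    have hpk : (0 : ℝ) < ((p ^ k : ℕ) : ℝ) ^ d := by
      have : (0 : ℝ) < ((p ^ k : ℕ) : ℝ) := by exact_mod_cast pow_pos hp k
      exact pow_pos this d
    filter_upwards [hf k (img (p ^ k) B) (u / 4) (by positivity)] with N hN
    have h1 := cnt_mono c (B := B) (B' := {v | (fun l => ((v l : ℤ) : ZMod (p ^ k))) ∈ img (p ^ k) B})
      (fun v hv => ⟨v, hv, rfl⟩) N
    have h2 : ((img (p ^ k) B).ncard : ℝ) / ((p ^ k : ℕ) : ℝ) ^ d ≤ u / (2 * (C + 1)) := by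
      rw [div_le_iff₀ hpk]
      exact hk
    have h3 : C * (((img (p ^ k) B).ncard : ℝ) / ((p ^ k : ℕ) : ℝ) ^ d) ≤ u / 2 := by
      calc C * (((img (p ^ k) B).ncard : ℝ) / ((p ^ k : ℕ) : ℝ) ^ d) ≤ C * (u / (2 * (C + 1))) :=
            mul_le_mul_of_nonneg_left h2 hC
        _ ≤ u / 2 := by
            rw [mul_div_assoc', div_le_div_iff₀ (by positivity) (by norm_num)]
            nlinarith
    push_cast at h2 h3 hN ⊢
    linarith

/-- random orbits -/
theorem orbit_rarely (hd : 2 ≤ d) (W : Walk (Fin d)) (v : Fin d → ℤ) :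
    ∀ᵐ w ∂(words W.m), ∀ p : ℕ, p.Prime → p ≠ 2 → ¬ p ∣ W.q₀ → (∃ i, ¬ (p : ℤ) ∣ v i) →
      ∀ B : Set (Fin d → ℤ), PNull p B → Rarely (orb W v w) B := by
  filter_upwards [orbit_freq hd W v] with w hw p hp hp2 hq hi B hB
  obtain ⟨i, hi⟩ := hi
  refine rarely_of_freq (C := 2) (by norm_num) hp.pos (fun k => hw (p ^ k) i (pow_pos hp.pos k) ?_) hB
  refine Nat.Coprime.pow_left k ?_
  refine Nat.Coprime.mul_right (Nat.Coprime.mul_right ?_ ?_) ?_
  · rw [Nat.coprime_primes hp Nat.prime_two]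
    exact hp2
  · exact (Nat.Prime.coprime_iff_not_dvd hp).2 hq
  · refine (Nat.Prime.coprime_iff_not_dvd hp).2 fun h => hi ?_
    exact Int.natCast_dvd.2 h

/-- metric sequences -/
theorem metric_rarely (a b : Fin d → ℝ) (f : Fin d → ℕ → ℝ → ℝ) (hab : ∀ i, a i < b i)
    (hf : ∀ i, Koksma (a i) (b i) (f i)) :
    ∀ᵐ α : Fin d → ℝ, (∀ i, α i ∈ Set.Icc (a i) (b i)) → ∀ p : ℕ, p.Prime →
      ∀ B : Set (Fin d → ℤ), PNull p B → Rarely (fun n i => ⌊f i n (α i)⌋) B := by
  filter_upwards [metric_freq a b f hab hf] with α hα hbox p hp B hB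
  exact rarely_of_freq zero_le_one hp.pos (fun k => hα hbox (p ^ k) (pow_pos hp.pos k)) hB

/-- linear sequences -/
theorem linear_rarely (a : Fin d → ℕ → ℝ) (δ : ℝ) (hδ : 0 < δ)
    (ha : ∀ i m n, m ≠ n → δ ≤ |a i m - a i n|) :
    ∀ᵐ α : Fin d → ℝ, ∀ p : ℕ, p.Prime →
      ∀ B : Set (Fin d → ℤ), PNull p B → Rarely (fun n i => ⌊a i n * α i⌋) B := by
  filter_upwards [linear_freq a δ hδ ha] with α hα p hp B hB
  exact rarely_of_freq zero_le_one hp.pos (fun k => hα (p ^ k) (pow_pos hp.pos k)) hB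

end Pool.Agent.N918.PN
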